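import Pool.Agent.Q278.GC.Stm2

/-! # Project GC (helper278), job CH (helper150): the approximate chaos is a Cauchy sequence -/

set_option autoImplicit false

open MeasureTheory Filter Topology ProbabilityTheory Complex
open scoped ComplexConjugate RealInnerProductSpace

namespace Pool.Agent.Q150.GC

open Pool.Agent.Q278.GC

/-- a linear combination of exponentials -/
noncomputable def XX {N : ℕ} (α : ℂ) (S : Matrix (Fin N) (Fin N) ℝ) (p : Fin N → ℂ)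
    (w : EuclideanSpace ℝ (Fin N)) : ℂ :=
  ∑ i, p i * cexp (α * (w i : ℝ) - α ^ 2 / 2 * (S i i : ℝ))

theorem XX_cont {N : ℕ} (α : ℂ) (S : Matrix (Fin N) (Fin N) ℝ) (p : Fin N → ℂ) :
    Continuous (XX α S p) := by
  unfold XX
  fun_prop

theorem term_eq {N : ℕ} (α : ℂ) (S : Matrix (Fin N) (Fin N) ℝ) (p q : Fin N → ℂ)
    (w : EuclideanSpace ℝ (Fin N)) :
    XX α S p w * conj (XX α S q w) = ∑ i, ∑ j, (p i * conj (q j) *
      cexp (-(α ^ 2 / 2 * (S i i : ℝ)) - (conj α) ^ 2 / 2 * (S j j : ℝ))) *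
        cexp (α * (w i : ℝ) + conj α * (w j : ℝ)) := by
  unfold XX
  rw [map_sum, Finset.sum_mul_sum]
  refine Finset.sum_congr rfl fun i _ => Finset.sum_congr rfl fun j _ => ?_
  rw [map_mul, ← Complex.exp_conj]
  have e1 : conj (α * (w j : ℝ) - α ^ 2 / 2 * (S j j : ℝ)) =
      conj α * (w j : ℝ) - (conj α) ^ 2 / 2 * (S j j : ℝ) := by
    simp [map_sub, map_mul, map_pow, map_div₀, Complex.conj_ofNat]
  rw [e1, mul_assoc (p i * conj (q j)), ← Complex.exp_add,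
    show -(α ^ 2 / 2 * (S i i : ℝ)) - (conj α) ^ 2 / 2 * (S j j : ℝ) +
      (α * (w i : ℝ) + conj α * (w j : ℝ)) = (α * (w i : ℝ) - α ^ 2 / 2 * (S i i : ℝ)) +
      (conj α * (w j : ℝ) - (conj α) ^ 2 / 2 * (S j j : ℝ)) by ring, Complex.exp_add]
  ring

theorem G1 (hEX : S_EX) {N : ℕ} (α : ℂ) (S : Matrix (Fin N) (Fin N) ℝ) (hS : S.PosSemidef)
    (p q : Fin N → ℂ) :
    Integrable (fun w => XX α S p w * conj (XX α S q w)) (multivariateGaussian 0 S) ∧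
    ∫ w, XX α S p w * conj (XX α S q w) ∂(multivariateGaussian 0 S) =
      ∑ i, ∑ j, p i * conj (q j) * ((Real.exp (‖α‖ ^ 2 * S i j) : ℝ) : ℂ) := by
  have h := hEX N S hS
  simp_rw [term_eq]
  have hI : ∀ i j, Integrable (fun w : EuclideanSpace ℝ (Fin N) => (p i * conj (q j) *
      cexp (-(α ^ 2 / 2 * (S i i : ℝ)) - (conj α) ^ 2 / 2 * (S j j : ℝ))) *
        cexp (α * (w i : ℝ) + conj α * (w j : ℝ))) (multivariateGaussian 0 S) :=
    fun i j => ((h i j α (conj α)).1).const_mul _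
  constructor
  · exact integrable_finsetSum _ fun i _ => integrable_finsetSum _ fun j _ => hI i j
  · rw [integral_finsetSum _ fun i _ => integrable_finsetSum _ fun j _ => hI i j]
    refine Finset.sum_congr rfl fun i _ => ?_
    rw [integral_finsetSum _ fun j _ => hI i j]
    refine Finset.sum_congr rfl fun j _ => ?_
    rw [integral_const_mul, (h i j α (conj α)).2, mul_assoc, ← Complex.exp_add, Complex.ofReal_exp]
    congr 2
    have e2 : α * conj α = ((‖α‖ ^ 2 : ℝ) : ℂ) := by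
      rw [Complex.mul_conj, Complex.normSq_eq_norm_sq]
    push_cast at e2 ⊢
    rw [← e2]
    ring

theorem norm_sq_eq {N : ℕ} (α : ℂ) (S : Matrix (Fin N) (Fin N) ℝ) (p : Fin N → ℂ)
    (w : EuclideanSpace ℝ (Fin N)) :
    ‖XX α S p w‖ ^ 2 = (XX α S p w * conj (XX α S p w)).re := by
  rw [Complex.mul_conj, Complex.normSq_eq_norm_sq, Complex.ofReal_re]

theorem G2 (hEX : S_EX) {N : ℕ} (α : ℂ) (S : Matrix (Fin N) (Fin N) ℝ) (hS : S.PosSemidef)
    (p : Fin N → ℂ) :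
    Integrable (fun w => ‖XX α S p w‖ ^ 2) (multivariateGaussian 0 S) ∧
    ∫ w, ‖XX α S p w‖ ^ 2 ∂(multivariateGaussian 0 S) =
      (∑ i, ∑ j, p i * conj (p j) * ((Real.exp (‖α‖ ^ 2 * S i j) : ℝ) : ℂ)).re := by
  obtain ⟨h1, h2⟩ := G1 hEX α S hS p p
  simp_rw [norm_sq_eq]
  refine ⟨h1.re, ?_⟩
  rw [← h2]
  exact integral_re h1

/-- the comparison of two laws -/
theorem G3 (hEX : S_EX) {N : ℕ} (α : ℂ) (S : Matrix (Fin N) (Fin N) ℝ) (hS : S.PosSemidef)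
    (p q : Fin N → ℂ) (I : ℂ) (δ : ℝ) (hδ : 0 < δ)
    (h1 : ‖(∑ i, ∑ j, p i * conj (p j) * ((Real.exp (‖α‖ ^ 2 * S i j) : ℝ) : ℂ)) - I‖ ≤ δ ^ 2 / 4)
    (h2 : ‖(∑ i, ∑ j, q i * conj (q j) * ((Real.exp (‖α‖ ^ 2 * S i j) : ℝ) : ℂ)) - I‖ ≤ δ ^ 2 / 4)
    (h3 : ‖(∑ i, ∑ j, p i * conj (q j) * ((Real.exp (‖α‖ ^ 2 * S i j) : ℝ) : ℂ)) - I‖ ≤ δ ^ 2 / 4)
    (h4 : ‖(∑ i, ∑ j, q i * conj (p j) * ((Real.exp (‖α‖ ^ 2 * S i j) : ℝ) : ℂ)) - I‖ ≤ δ ^ 2 / 4)
    (Φ : ℂ → ℝ) (hΦ1 : ∀ z, |Φ z| ≤ 1) (hΦ : LipschitzWith 1 Φ) :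
    |∫ w, Φ (XX α S p w) ∂(multivariateGaussian 0 S) -
      ∫ w, Φ (XX α S q w) ∂(multivariateGaussian 0 S)| ≤ δ := by
  obtain ⟨g1, g2⟩ := G2 hEX α S hS (fun i => p i - q i)
  have hsub : ∀ w, XX α S (fun i => p i - q i) w = XX α S p w - XX α S q w := by
    intro w
    unfold XX
    rw [← Finset.sum_sub_distrib]
    exact Finset.sum_congr rfl fun i _ => by ring
  have hval : ∫ w, ‖XX α S (fun i => p i - q i) w‖ ^ 2 ∂(multivariateGaussian 0 S) ≤ δ ^ 2 := by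
    rw [g2]
    have e1 : (∑ i, ∑ j, (p i - q i) * conj (p j - q j) *
        ((Real.exp (‖α‖ ^ 2 * S i j) : ℝ) : ℂ)) =
        ((∑ i, ∑ j, p i * conj (p j) * ((Real.exp (‖α‖ ^ 2 * S i j) : ℝ) : ℂ)) - I) +
        ((∑ i, ∑ j, q i * conj (q j) * ((Real.exp (‖α‖ ^ 2 * S i j) : ℝ) : ℂ)) - I) -
        ((∑ i, ∑ j, p i * conj (q j) * ((Real.exp (‖α‖ ^ 2 * S i j) : ℝ) : ℂ)) - I) -
        ((∑ i, ∑ j, q i * conj (p j) * ((Real.exp (‖α‖ ^ 2 * S i j) : ℝ) : ℂ)) - I) := by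
      have e2 : (∑ i, ∑ j, (p i - q i) * conj (p j - q j) *
          ((Real.exp (‖α‖ ^ 2 * S i j) : ℝ) : ℂ)) =
          (∑ i, ∑ j, p i * conj (p j) * ((Real.exp (‖α‖ ^ 2 * S i j) : ℝ) : ℂ)) +
          (∑ i, ∑ j, q i * conj (q j) * ((Real.exp (‖α‖ ^ 2 * S i j) : ℝ) : ℂ)) -
          (∑ i, ∑ j, p i * conj (q j) * ((Real.exp (‖α‖ ^ 2 * S i j) : ℝ) : ℂ)) -
          (∑ i, ∑ j, q i * conj (p j) * ((Real.exp (‖α‖ ^ 2 * S i j) : ℝ) : ℂ)) := by
        simp only [← Finset.sum_add_distrib, ← Finset.sum_sub_distrib, map_sub]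
        exact Finset.sum_congr rfl fun i _ => Finset.sum_congr rfl fun j _ => by ring
      rw [e2]; ring
    rw [e1]
    refine (Complex.re_le_norm _).trans ?_
    refine (norm_sub_le _ _).trans ?_
    have := (norm_sub_le ((∑ i, ∑ j, p i * conj (p j) * ((Real.exp (‖α‖ ^ 2 * S i j) : ℝ) : ℂ)) - I
      + ((∑ i, ∑ j, q i * conj (q j) * ((Real.exp (‖α‖ ^ 2 * S i j) : ℝ) : ℂ)) - I))
      ((∑ i, ∑ j, p i * conj (q j) * ((Real.exp (‖α‖ ^ 2 * S i j) : ℝ) : ℂ)) - I))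
    have h5 := norm_add_le ((∑ i, ∑ j, p i * conj (p j) * ((Real.exp (‖α‖ ^ 2 * S i j) : ℝ) : ℂ)) - I)
      ((∑ i, ∑ j, q i * conj (q j) * ((Real.exp (‖α‖ ^ 2 * S i j) : ℝ) : ℂ)) - I)
    linarith
  have hint : ∀ r : Fin N → ℂ, Integrable (fun w => Φ (XX α S r w)) (multivariateGaussian 0 S) := by
    intro r
    refine Integrable.mono' (integrable_const (1 : ℝ))
      ((hΦ.continuous.comp (XX_cont α S r)).aestronglyMeasurable) ?_
    exact Filter.Eventually.of_forall fun w => by rw [Real.norm_eq_abs]; exact hΦ1 _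
  rw [← integral_sub (hint p) (hint q)]
  have hb : ∀ w, |Φ (XX α S p w) - Φ (XX α S q w)| ≤
      ‖XX α S (fun i => p i - q i) w‖ ^ 2 / (2 * δ) + δ / 2 := by
    intro w
    have k1 : |Φ (XX α S p w) - Φ (XX α S q w)| ≤ ‖XX α S (fun i => p i - q i) w‖ := by
      rw [hsub, ← dist_eq_norm, ← Real.dist_eq]
      simpa using hΦ.dist_le_mul (XX α S p w) (XX α S q w)
    refine k1.trans ?_
    set t := ‖XX α S (fun i => p i - q i) w‖
    rw [div_add' _ _ _ (by positivity), le_div_iff₀ (by positivity)]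
    nlinarith [sq_nonneg (t - δ)]
  calc |∫ w, (Φ (XX α S p w) - Φ (XX α S q w)) ∂(multivariateGaussian 0 S)|
      ≤ ∫ w, |Φ (XX α S p w) - Φ (XX α S q w)| ∂(multivariateGaussian 0 S) :=
        abs_integral_le_integral_abs
    _ ≤ ∫ w, (‖XX α S (fun i => p i - q i) w‖ ^ 2 / (2 * δ) + δ / 2)
        ∂(multivariateGaussian 0 S) :=
        integral_mono ((hint p).sub (hint q)).abs ((g1.div_const _).add (integrable_const _)) hb
    _ = (∫ w, ‖XX α S (fun i => p i - q i) w‖ ^ 2 ∂(multivariateGaussian 0 S)) / (2 * δ) + δ / 2 := by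
        rw [integral_add (g1.div_const _) (integrable_const _), integral_div]
        simp
    _ ≤ δ ^ 2 / (2 * δ) + δ / 2 := by gcongr
    _ = δ := by field_simp; ring

/-- the joint covariance -/
noncomputable def SJ (K : ℕ → ℕ → ℝ → ℝ → ℝ) (J n J' n' : ℕ) :
    Matrix (Fin (n + n')) (Fin (n + n')) ℝ :=
  Matrix.of fun i j => K (Fin.addCases (fun _ => J) (fun _ => J') i)
    (Fin.addCases (fun _ => J) (fun _ => J') j)
    (Fin.addCases (fun k : Fin n => (k : ℝ) / n) (fun k : Fin n' => (k : ℝ) / n') i)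
    (Fin.addCases (fun k : Fin n => (k : ℝ) / n) (fun k : Fin n' => (k : ℝ) / n') j)

theorem SJ_psd {K : ℕ → ℕ → ℝ → ℝ → ℝ} {κ C : ℝ} (hK : KerB K κ C) (J n J' n' : ℕ) :
    (SJ K J n J' n').PosSemidef :=
  hK.psd (n + n') _ _

theorem KM_psd {K : ℕ → ℕ → ℝ → ℝ → ℝ} {κ C : ℝ} (hK : KerB K κ C) (J n : ℕ) :
    (KM K J n).PosSemidef :=
  hK.psd n (fun _ => J) (fun k => (k : ℝ) / n)

theorem Ch_eq (K : ℕ → ℕ → ℝ → ℝ → ℝ) (α : ℂ) (φ : ℝ → ℂ) (J n : ℕ) :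
    Ch K α φ J n = XX α (KM K J n) (fun k => ph φ n k) := rfl

theorem RR_fin (K : ℕ → ℕ → ℝ → ℝ → ℝ) (b : ℝ) (φ : ℝ → ℂ) (J n J' n' : ℕ) :
    RR K b φ J n J' n' = ∑ k : Fin n, ∑ l : Fin n',
    ph φ n k * conj (ph φ n' l) * ((Real.exp (b * K J J' ((k : ℝ) / n) ((l : ℝ) / n')) : ℝ) : ℂ) := by
  unfold RR
  rw [Finset.sum_range]
  refine Finset.sum_congr rfl fun k _ => ?_
  rw [Finset.sum_range]

/-- projections -/
noncomputable def PL (n n' : ℕ) : Matrix (Fin n) (Fin (n + n')) ℝ :=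
  Matrix.of fun i j => if j = Fin.castAdd n' i then 1 else 0
noncomputable def PR (n n' : ℕ) : Matrix (Fin n') (Fin (n + n')) ℝ :=
  Matrix.of fun i j => if j = Fin.natAdd n i then 1 else 0

theorem PL_mulVec (n n' : ℕ) (w : Fin (n + n') → ℝ) (i : Fin n) :
    (PL n n').mulVec w i = w (Fin.castAdd n' i) := by
  simp [Matrix.mulVec, dotProduct, PL]

theorem PR_mulVec (n n' : ℕ) (w : Fin (n + n') → ℝ) (i : Fin n') :
    (PR n n').mulVec w i = w (Fin.natAdd n i) := by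
  simp [Matrix.mulVec, dotProduct, PR]

theorem PL_cov (K : ℕ → ℕ → ℝ → ℝ → ℝ) (J n J' n' : ℕ) :
    PL n n' * SJ K J n J' n' * (PL n n').transpose = KM K J n := by
  ext i j
  simp [Matrix.mul_apply, PL, SJ, KM]

theorem PR_cov (K : ℕ → ℕ → ℝ → ℝ → ℝ) (J n J' n' : ℕ) :
    PR n n' * SJ K J n J' n' * (PR n n').transpose = KM K J' n' := by
  ext i j
  simp [Matrix.mul_apply, PR, SJ, KM]

theorem int_L (hLIN : S_LIN) {K : ℕ → ℕ → ℝ → ℝ → ℝ} {κ C : ℝ} (hK : KerB K κ C) (α : ℂ)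
    (φ : ℝ → ℂ) (J n J' n' : ℕ) (Φ : ℂ → ℝ) (hΦ : Continuous Φ) :
    ∫ w, Φ (Ch K α φ J n w) ∂(multivariateGaussian 0 (KM K J n)) =
      ∫ w, Φ (XX α (SJ K J n J' n') (Fin.addCases (fun k : Fin n => ph φ n k) (fun _ => 0)) w)
        ∂(multivariateGaussian 0 (SJ K J n J' n')) := by
  have h := hLIN (n + n') n (SJ K J n J' n') (PL n n') (SJ_psd hK J n J' n')
  rw [PL_cov] at h
  have hm : Measurable (fun w : EuclideanSpace ℝ (Fin (n + n')) =>
      (WithLp.toLp 2 ((PL n n').mulVec w.ofLp) : EuclideanSpace ℝ (Fin n))) := by fun_prop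
  rw [← h, integral_map (f := fun w => Φ (Ch K α φ J n w)) hm.aemeasurable
    (show Continuous fun w => Φ (Ch K α φ J n w) from
      hΦ.comp (XX_cont α (KM K J n) _)).aestronglyMeasurable]
  congr 1
  funext w
  congr 1
  rw [Ch_eq]
  unfold XX
  rw [Fin.sum_univ_add]
  simp [PL_mulVec, SJ, KM]

theorem int_R (hLIN : S_LIN) {K : ℕ → ℕ → ℝ → ℝ → ℝ} {κ C : ℝ} (hK : KerB K κ C) (α : ℂ)
    (φ : ℝ → ℂ) (J n J' n' : ℕ) (Φ : ℂ → ℝ) (hΦ : Continuous Φ) :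
    ∫ w, Φ (Ch K α φ J' n' w) ∂(multivariateGaussian 0 (KM K J' n')) =
      ∫ w, Φ (XX α (SJ K J n J' n') (Fin.addCases (fun _ => 0) (fun k : Fin n' => ph φ n' k)) w)
        ∂(multivariateGaussian 0 (SJ K J n J' n')) := by
  have h := hLIN (n + n') n' (SJ K J n J' n') (PR n n') (SJ_psd hK J n J' n')
  rw [PR_cov] at h
  have hm : Measurable (fun w : EuclideanSpace ℝ (Fin (n + n')) =>
      (WithLp.toLp 2 ((PR n n').mulVec w.ofLp) : EuclideanSpace ℝ (Fin n'))) := by fun_prop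
  rw [← h, integral_map (f := fun w => Φ (Ch K α φ J' n' w)) hm.aemeasurable
    (show Continuous fun w => Φ (Ch K α φ J' n' w) from
      hΦ.comp (XX_cont α (KM K J' n') _)).aestronglyMeasurable]
  congr 1
  funext w
  congr 1
  rw [Ch_eq]
  unfold XX
  rw [Fin.sum_univ_add]
  simp [PR_mulVec, SJ, KM]

theorem sum_ph {φ : ℝ → ℂ} (hφ : Continuous φ) {n : ℕ} (hn : 1 ≤ n) :
    ∑ k : Fin n, ph φ n k = ∫ x in (0 : ℝ)..1, φ x := by
  rw [← Finset.sum_range (fun k => ph φ n k)]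
  unfold ph
  have h := intervalIntegral.sum_integral_adjacent_intervals (μ := volume) (f := φ)
    (a := fun k : ℕ => (k : ℝ) / n) (n := n) (fun k _ => hφ.intervalIntegrable _ _)
  have hn' : (n : ℝ) ≠ 0 := by positivity
  simp only [Nat.cast_zero, zero_div, div_self hn', Nat.cast_add, Nat.cast_one] at h
  exact h

theorem t_CH : S_CH := by
  intro hEX hLIN hDC K κ C α hK hα φ hφ
  obtain ⟨I, hI⟩ := hDC K κ C (‖α‖ ^ 2) hK (by positivity) hα φ hφ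
  refine ⟨?_, ?_, ?_⟩
  · intro δ hδ
    obtain ⟨J0, hJ0⟩ := hI (δ ^ 2 / 4) (by positivity)
    refine ⟨J0, fun J J' n n' hJ hJ' hn hn' Φ hΦ1 hΦ => ?_⟩
    rw [int_L hLIN hK α φ J n J' n' Φ hΦ.continuous, int_R hLIN hK α φ J n J' n' Φ hΦ.continuous]
    apply G3 hEX α _ (SJ_psd hK J n J' n') _ _ I δ hδ _ _ _ _ Φ hΦ1 hΦ
    · have h := hJ0 J J n n hJ hJ hn hn
      rw [RR_fin] at h
      rw [Fin.sum_univ_add]
      simpa [Fin.sum_univ_add, SJ] using h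
    · have h := hJ0 J' J' n' n' hJ' hJ' hn' hn'
      rw [RR_fin] at h
      rw [Fin.sum_univ_add]
      simpa [Fin.sum_univ_add, SJ] using h
    · have h := hJ0 J J' n n' hJ hJ' hn hn'
      rw [RR_fin] at h
      rw [Fin.sum_univ_add]
      simpa [Fin.sum_univ_add, SJ] using h
    · have h := hJ0 J' J n' n hJ' hJ hn' hn
      rw [RR_fin] at h
      rw [Fin.sum_univ_add]
      simpa [Fin.sum_univ_add, SJ] using h
  · obtain ⟨J0, hJ0⟩ := hI 1 one_pos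
    refine ⟨‖I‖ + 1, J0, fun J n hJ hn => ?_⟩
    obtain ⟨h1, h2⟩ := G2 hEX α (KM K J n) (KM_psd hK J n) (fun k => ph φ n k)
    refine ⟨h1, ?_⟩
    have h := hJ0 J J n n hJ hJ hn hn
    rw [RR_fin] at h
    rw [Ch_eq, h2]
    refine (Complex.re_le_norm _).trans ?_
    have h3 := norm_add_le I ((∑ k : Fin n, ∑ l : Fin n, ph φ n k * conj (ph φ n l) *
      ((Real.exp (‖α‖ ^ 2 * K J J ((k : ℝ) / n) ((l : ℝ) / n)) : ℝ) : ℂ)) - I)
    rw [add_sub_cancel] at h3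
    exact h3.trans (by linarith)
  · intro J n hn
    have hS := KM_psd hK J n
    have hterm : ∀ k : Fin n, Integrable (fun w : EuclideanSpace ℝ (Fin n) =>
        ph φ n k * cexp (α * (w k : ℝ) - α ^ 2 / 2 * (KM K J n k k : ℝ)))
        (multivariateGaussian 0 (KM K J n)) ∧
        ∫ w : EuclideanSpace ℝ (Fin n), ph φ n k *
          cexp (α * (w k : ℝ) - α ^ 2 / 2 * (KM K J n k k : ℝ))
          ∂(multivariateGaussian 0 (KM K J n)) = ph φ n k := by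
      intro k
      obtain ⟨h1, h2⟩ := hEX n (KM K J n) hS k k α 0
      have e : ∀ w : EuclideanSpace ℝ (Fin n),
          ph φ n k * cexp (α * (w k : ℝ) - α ^ 2 / 2 * (KM K J n k k : ℝ)) =
          (ph φ n k * cexp (-(α ^ 2 / 2 * (KM K J n k k : ℝ)))) *
            cexp (α * (w k : ℝ) + 0 * (w k : ℝ)) := by
        intro w
        rw [mul_assoc, ← Complex.exp_add]
        congr 2
        ring
      simp_rw [e]
      refine ⟨h1.const_mul _, ?_⟩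
      rw [integral_const_mul, h2, mul_assoc, ← Complex.exp_add]
      rw [show -(α ^ 2 / 2 * ((KM K J n k k : ℝ) : ℂ)) + (α ^ 2 * ((KM K J n k k : ℝ) : ℂ) +
        2 * α * 0 * ((KM K J n k k : ℝ) : ℂ) + 0 ^ 2 * ((KM K J n k k : ℝ) : ℂ)) / 2 = 0 by ring,
        Complex.exp_zero, mul_one]
    rw [Ch_eq]
    unfold XX
    constructor
    · exact integrable_finsetSum _ fun k _ => (hterm k).1
    · rw [integral_finsetSum _ fun k _ => (hterm k).1, ← sum_ph hφ hn]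
      exact Finset.sum_congr rfl fun k _ => (hterm k).2

end Pool.Agent.Q150.GC
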