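import Mathlib

/-! # Project GC (helper278), jobs EX and LIN (helper150): the facts from Mathlib -/

set_option autoImplicit false

open MeasureTheory Filter Topology ProbabilityTheory Complex
open scoped ComplexConjugate RealInnerProductSpace MatrixOrder

namespace Pool.Agent.Q150.GC

theorem one_int (c : ℂ) : Integrable (fun x : ℝ => cexp (c * x)) (gaussianReal 0 1) := by
  have h : Integrable (fun x : ℝ => Real.exp (c.re * x)) (gaussianReal 0 1) :=
    integrable_exp_mul_gaussianReal _
  refine h.mono (by fun_prop) (Filter.Eventually.of_forall fun x => ?_)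
  rw [Complex.norm_exp, Real.norm_eq_abs, abs_of_pos (Real.exp_pos _)]
  simp

theorem one_val (c : ℂ) : ∫ x : ℝ, cexp (c * x) ∂(gaussianReal 0 1) = cexp (c ^ 2 / 2) := by
  have h := complexMGF_id_gaussianReal (μ := 0) (v := 1) c
  simpa [complexMGF] using h

theorem pi_cexp (n : ℕ) (c : Fin n → ℂ) :
    Integrable (fun x : Fin n → ℝ => cexp (∑ k, c k * (x k : ℝ)))
      (Measure.pi fun _ : Fin n => gaussianReal 0 1) ∧
    ∫ x : Fin n → ℝ, cexp (∑ k, c k * (x k : ℝ)) ∂(Measure.pi fun _ : Fin n => gaussianReal 0 1) =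
      cexp (∑ k, c k ^ 2 / 2) := by
  constructor
  · have h := Integrable.fintype_prod (μ := fun _ : Fin n => gaussianReal 0 1)
      (f := fun (k : Fin n) (x : ℝ) => cexp (c k * x)) (fun k => one_int (c k))
    simpa only [Complex.exp_sum] using h
  · simp_rw [Complex.exp_sum]
    rw [integral_fintype_prod_eq_prod (μ := fun _ : Fin n => gaussianReal 0 1)
      (f := fun (k : Fin n) (x : ℝ) => cexp (c k * x))]
    exact Finset.prod_congr rfl fun k _ => one_val (c k)

theorem mv_eq (n : ℕ) (S : Matrix (Fin n) (Fin n) ℝ) :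
    multivariateGaussian (0 : EuclideanSpace ℝ (Fin n)) S =
      (Measure.pi fun _ : Fin n => gaussianReal 0 1).map
        (fun x => (WithLp.toLp 2 ((CFC.sqrt S).mulVec x) : EuclideanSpace ℝ (Fin n))) := by
  rw [multivariateGaussian, ← map_pi_eq_stdGaussian, Measure.map_map (by fun_prop) (by fun_prop)]
  congr 1
  funext x
  rw [Function.comp_apply, zero_add]
  rfl

theorem ex (n : ℕ) (S : Matrix (Fin n) (Fin n) ℝ) (hS : S.PosSemidef) (i j : Fin n) (α β : ℂ) :
    Integrable (fun w : EuclideanSpace ℝ (Fin n) => cexp (α * (w i : ℝ) + β * (w j : ℝ)))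
      (multivariateGaussian 0 S) ∧
    ∫ w, cexp (α * (w i : ℝ) + β * (w j : ℝ)) ∂(multivariateGaussian (0 : EuclideanSpace ℝ (Fin n)) S) =
      cexp ((α ^ 2 * (S i i : ℝ) + 2 * α * β * (S i j : ℝ) + β ^ 2 * (S j j : ℝ)) / 2) := by
  set A := CFC.sqrt S with hA
  have hAA : A * A = S := CFC.sqrt_mul_sqrt_self _ hS.nonneg
  have hAs : A.transpose = A := by
    have h1 : IsSelfAdjoint A := (CFC.sqrt_nonneg S).isSelfAdjoint
    have h2 : A.conjTranspose = A := h1
    simpa using h2
  have hsum : ∀ a b : Fin n, ∑ k, A a k * A b k = S a b := by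
    intro a b
    rw [← hAA, Matrix.mul_apply]
    refine Finset.sum_congr rfl fun k _ => ?_
    have : A k b = A b k := by
      conv_lhs => rw [← hAs]
      rfl
    rw [this]
  obtain ⟨h1, h2⟩ := pi_cexp n (fun k => α * (A i k : ℝ) + β * (A j k : ℝ))
  have hm : Measurable (fun x : Fin n → ℝ =>
      (WithLp.toLp 2 (A.mulVec x) : EuclideanSpace ℝ (Fin n))) := by fun_prop
  have he : ∀ x : Fin n → ℝ, cexp (α * (((WithLp.toLp 2 (A.mulVec x) : EuclideanSpace ℝ (Fin n)) i : ℝ)) +
      β * (((WithLp.toLp 2 (A.mulVec x) : EuclideanSpace ℝ (Fin n)) j : ℝ))) =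
      cexp (∑ k, (α * (A i k : ℝ) + β * (A j k : ℝ)) * (x k : ℝ)) := by
    intro x
    congr 1
    simp only [Matrix.mulVec, dotProduct, Complex.ofReal_sum, Complex.ofReal_mul, Finset.mul_sum]
    rw [← Finset.sum_add_distrib]
    refine Finset.sum_congr rfl fun k _ => ?_
    ring
  rw [mv_eq]
  constructor
  · rw [integrable_map_measure (by fun_prop) hm.aemeasurable]
    refine h1.congr (Filter.Eventually.of_forall fun x => ?_)
    exact (he x).symm
  · rw [integral_map hm.aemeasurable (by fun_prop)]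
    rw [integral_congr_ae (Filter.Eventually.of_forall he), h2]
    congr 1
    have e1 : ∑ k, (α * (A i k : ℝ) + β * (A j k : ℝ)) ^ 2 / 2 =
        (α ^ 2 * ((∑ k, A i k * A i k : ℝ) : ℂ) + 2 * α * β * ((∑ k, A i k * A j k : ℝ) : ℂ) +
          β ^ 2 * ((∑ k, A j k * A j k : ℝ) : ℂ)) / 2 := by
      push_cast
      simp only [Finset.mul_sum]
      rw [← Finset.sum_add_distrib, ← Finset.sum_add_distrib, Finset.sum_div]
      refine Finset.sum_congr rfl fun k _ => ?_
      ring
    rw [e1, hsum, hsum, hsum]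

theorem lin (n k : ℕ) (S : Matrix (Fin n) (Fin n) ℝ) (A : Matrix (Fin k) (Fin n) ℝ)
    (hS : S.PosSemidef) :
    (multivariateGaussian (0 : EuclideanSpace ℝ (Fin n)) S).map
      (fun w => (WithLp.toLp 2 (A.mulVec w.ofLp) : EuclideanSpace ℝ (Fin k))) =
    multivariateGaussian (0 : EuclideanSpace ℝ (Fin k)) (A * S * A.transpose) := by
  have hm : Measurable (fun w : EuclideanSpace ℝ (Fin n) =>
      (WithLp.toLp 2 (A.mulVec w.ofLp) : EuclideanSpace ℝ (Fin k))) := by fun_prop
  have : IsProbabilityMeasure ((multivariateGaussian (0 : EuclideanSpace ℝ (Fin n)) S).map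
      (fun w => (WithLp.toLp 2 (A.mulVec w.ofLp) : EuclideanSpace ℝ (Fin k)))) :=
    Measure.isProbabilityMeasure_map hm.aemeasurable
  have hS2 : (A * S * A.transpose).PosSemidef := by
    have := hS.mul_mul_conjTranspose_same A
    simpa using this
  apply Measure.ext_of_charFun
  funext t
  have h1 : charFun ((multivariateGaussian (0 : EuclideanSpace ℝ (Fin n)) S).map
      (fun w => (WithLp.toLp 2 (A.mulVec w.ofLp) : EuclideanSpace ℝ (Fin k)))) t =
      charFun (multivariateGaussian (0 : EuclideanSpace ℝ (Fin n)) S)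
        (WithLp.toLp 2 (A.transpose.mulVec t.ofLp)) := by
    rw [charFun_apply, charFun_apply, integral_map hm.aemeasurable (by fun_prop)]
    congr 1
    funext w
    congr 2
    rw [EuclideanSpace.inner_eq_star_dotProduct, EuclideanSpace.inner_eq_star_dotProduct]
    simp only [star_trivial]
    rw [Matrix.dotProduct_mulVec, Matrix.mulVec_transpose]
  rw [h1, charFun_multivariateGaussian hS, charFun_multivariateGaussian hS2]
  congr 1
  have e1 : (WithLp.toLp 2 (A.transpose.mulVec t.ofLp) : EuclideanSpace ℝ (Fin n)).ofLp =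
    A.transpose.mulVec t.ofLp := rfl
  have e2 : A.transpose.mulVec t.ofLp ⬝ᵥ S.mulVec (A.transpose.mulVec t.ofLp) =
      t.ofLp ⬝ᵥ (A * S * A.transpose).mulVec t.ofLp := by
    rw [Matrix.mulVec_transpose, ← Matrix.dotProduct_mulVec, ← Matrix.mulVec_transpose,
      Matrix.mulVec_mulVec, Matrix.mulVec_mulVec, Matrix.mul_assoc]
  rw [inner_zero_right, inner_zero_right, e1, e2]

end Pool.Agent.Q150.GC
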