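import Pool.Agent.Q278.GC.Stm2
import Pool.Agent.Q150.GC.EXa

/-! # Project GC (helper278), jobs EX and LIN (helper150) -/

namespace Pool.Agent.Q150.GC

theorem t_EX : Pool.Agent.Q278.GC.S_EX := ex
theorem t_LIN : Pool.Agent.Q278.GC.S_LIN := lin

end Pool.Agent.Q150.GC
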